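import Pool.Agent.S17321

/-!
# Infinitely many odd integers, not a power of two plus a prime (or a prime power), which
# belong to no covering class

The integers are `n = 2 ^ (2 ^ s - 1) - 1`, `s ≥ 4`: they are odd, positive, not of the form
`2 ^ k + p ^ j` with `p` prime and `k, j ≥ 0` (in particular not of the form `2 ^ k + p`), and belong to no
covering class. (For `s = 3`, `127 = 2 + 5 ^ 3`.)
-/

set_option autoImplicit false

namespace Pool.Agent.Results.MP_6c5308_nt.OutsideCoveringClasses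

/-- A covering datum: finitely many congruences `a_i (mod m_i)`, `m_i ≥ 1`, such that every integer
satisfies at least one of them, together with primes `q_i` such that `2 ^ m_i ≡ 1 (mod q_i)`.
(The residues `a_i` are taken as natural numbers, so that `2 ^ a_i` is an integer.) -/
structure CoveringDatum where
  /-- the number of congruences -/
  s : ℕ
  /-- the residues -/
  a : Fin s → ℕ
  /-- the moduli -/
  m : Fin s → ℕ
  /-- the primes -/
  q : Fin s → ℕ
  one_le_m : ∀ i, 1 ≤ m i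
  covers : ∀ x : ℤ, ∃ i, x ≡ a i [ZMOD m i]
  prime_q : ∀ i, (q i).Prime
  two_pow_m : ∀ i, (2 : ℤ) ^ m i ≡ 1 [ZMOD q i]

/-- The covering class of a covering datum: the odd integers `n` with `n ≡ 2 ^ a_i (mod q_i)` for
all `i`. -/
def CoveringDatum.coveringClass (D : CoveringDatum) : Set ℤ :=
  {n | Odd n ∧ ∀ i, n ≡ 2 ^ D.a i [ZMOD D.q i]}

/-- `n = 2 ^ k + p ^ j` for some integers `k, j ≥ 0` and some prime `p` (`j = 1` is the form `2 ^ k + p` of
the question). -/
def IsPowAddPrimePow (n : ℤ) : Prop := ∃ k p j : ℕ, p.Prime ∧ n = 2 ^ k + p ^ j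

/-- `2 ^ k ≡ 2 ^ a (mod q)` if `k ≡ a (mod m)` and `2 ^ m ≡ 1 (mod q)`. -/
theorem pow_congr {a m q k : ℕ} (hm : (2 : ℤ) ^ m ≡ 1 [ZMOD q]) (h : (k : ℤ) ≡ a [ZMOD m]) :
    (2 : ℤ) ^ k ≡ 2 ^ a [ZMOD q] := by
  have key : ∀ u v : ℕ, u ≤ v → (u : ℤ) ≡ v [ZMOD m] → (2 : ℤ) ^ u ≡ 2 ^ v [ZMOD q] := by
    intro u v huv h
    have h1 : (m : ℤ) ∣ (v : ℤ) - u := Int.modEq_iff_dvd.mp h
    have h2 : m ∣ v - u := by
      have : ((v - u : ℕ) : ℤ) = (v : ℤ) - u := by
        rw [Nat.cast_sub huv]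
      rw [← this] at h1
      exact_mod_cast h1
    obtain ⟨c, hc⟩ := h2
    have h3 : v = u + m * c := by omega
    rw [h3, pow_add, pow_mul]
    have h4 : ((2 : ℤ) ^ m) ^ c ≡ 1 ^ c [ZMOD q] := hm.pow c
    rw [one_pow] at h4
    simpa using (Int.ModEq.mul_left ((2 : ℤ) ^ u) h4).symm
  rcases le_total k a with hk | hk
  · exact key k a hk h
  · exact (key a k hk h.symm).symm

/-- `2 ^ m - 1` belongs to no covering class. -/
theorem not_mem_class (D : CoveringDatum) (n : ℤ) (m : ℕ) (hn : n - 2 ^ m = -1) :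
    n ∉ D.coveringClass := by
  rintro ⟨-, hcl⟩
  obtain ⟨i, hi⟩ := D.covers m
  have h1 : (2 : ℤ) ^ m ≡ 2 ^ D.a i [ZMOD D.q i] := pow_congr (D.two_pow_m i) hi
  have h2 : (2 : ℤ) ^ m ≡ n [ZMOD D.q i] := h1.trans (hcl i).symm
  have h3 : ((D.q i : ℕ) : ℤ) ∣ n - 2 ^ m := Int.modEq_iff_dvd.mp h2
  rw [hn] at h3
  have h4 : ((D.q i : ℕ) : ℤ) ∣ 1 := by simpa using h3
  have h5 : D.q i ∣ 1 := by exact_mod_cast h4
  exact (D.prime_q i).one_lt.ne' (Nat.dvd_one.mp h5)

/-- No square is a nonzero square plus one. -/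
theorem sq_ne (x y : ℕ) (hy : 0 < y) : x ^ 2 ≠ y ^ 2 + 1 := by
  intro h
  have h1 : y < x := by
    by_contra hc
    have : x ^ 2 ≤ y ^ 2 := Nat.pow_le_pow_left (by omega) 2
    omega
  have h2 : (y + 1) ^ 2 ≤ x ^ 2 := Nat.pow_le_pow_left h1 2
  nlinarith

/-- powers of an odd number modulo 8 -/
theorem odd_pow_mod (p j : ℕ) (hp : p % 2 = 1) : p ^ j % 8 = if j % 2 = 0 then 1 else p % 8 := by
  have hsq : p ^ 2 % 8 = 1 := by
    have h1 : p % 8 = 1 ∨ p % 8 = 3 ∨ p % 8 = 5 ∨ p % 8 = 7 := by omega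
    rw [Nat.pow_mod]
    rcases h1 with h | h | h | h <;> rw [h]
  have hev : ∀ t : ℕ, p ^ (2 * t) % 8 = 1 := by
    intro t
    rw [pow_mul, Nat.pow_mod, hsq, one_pow]; rfl
  rcases Nat.mod_two_eq_zero_or_one j with h | h
  · rw [if_pos h]
    have : j = 2 * (j / 2) := by omega
    rw [this]; exact hev _
  · rw [if_neg (by omega)]
    have : j = 2 * (j / 2) + 1 := by omega
    rw [this, pow_succ, Nat.mul_mod, hev, one_mul, Nat.mod_mod]

/-- `5 ^ j = 2 ^ m - 3` is impossible for `m ≡ 15 (mod 16)`. -/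
theorem five_case (m j c : ℕ) (hm : m = 16 * c + 15) (h : 2 ^ m = 3 + 5 ^ j) : False := by
  have h17 : 2 ^ m % 17 = 9 := by
    rw [hm, pow_add, pow_mul, Nat.mul_mod, Nat.pow_mod]
    norm_num
  have h257 : 2 ^ m % 257 = 129 := by
    rw [hm, pow_add, pow_mul, Nat.mul_mod, Nat.pow_mod]
    norm_num
  have e : j = 256 * (j / 256) + j % 256 := by omega
  have a17 : 5 ^ j % 17 = 5 ^ (j % 256) % 17 := by
    conv_lhs => rw [e]
    rw [pow_add, pow_mul, Nat.mul_mod, Nat.pow_mod (5 ^ 256) _ 17]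
    have : 5 ^ 256 % 17 = 1 := by norm_num
    rw [this, one_pow]; simp
  have a257 : 5 ^ j % 257 = 5 ^ (j % 256) % 257 := by
    conv_lhs => rw [e]
    rw [pow_add, pow_mul, Nat.mul_mod, Nat.pow_mod (5 ^ 256) _ 257]
    have : 5 ^ 256 % 257 = 1 := by norm_num
    rw [this, one_pow]; simp
  have hr : j % 256 < 256 := Nat.mod_lt _ (by norm_num)
  have hdec : ∀ r < 256, ¬ (5 ^ r % 17 = 6 ∧ 5 ^ r % 257 = 126) := by decide +kernel
  apply hdec _ hr
  rw [← a17, ← a257]
  omega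

/-- `3 ^ j = 2 ^ m - 5` is impossible for `m ≡ 7 (mod 8)`. -/
theorem three_case (m j c : ℕ) (hm : m = 8 * c + 7) (h : 2 ^ m = 5 + 3 ^ j) : False := by
  have h17 : 2 ^ m % 17 = 9 := by
    rw [hm, pow_add, pow_mul, Nat.mul_mod, Nat.pow_mod]
    norm_num
  have h8 : 2 ^ m % 8 = 0 := by
    rw [hm, pow_add, pow_mul, Nat.mul_mod]
    norm_num
  have e : j = 16 * (j / 16) + j % 16 := by omega
  have a17 : 3 ^ j % 17 = 3 ^ (j % 16) % 17 := by
    conv_lhs => rw [e]
    rw [pow_add, pow_mul, Nat.mul_mod, Nat.pow_mod (3 ^ 16) _ 17]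
    have : 3 ^ 16 % 17 = 1 := by norm_num
    rw [this, one_pow]; simp
  have a8 : 3 ^ j % 8 = 3 ^ (j % 16) % 8 := by
    conv_lhs => rw [e]
    rw [pow_add, pow_mul, Nat.mul_mod, Nat.pow_mod (3 ^ 16) _ 8]
    have : 3 ^ 16 % 8 = 1 := by norm_num
    rw [this, one_pow]; simp
  have hr : j % 16 < 16 := Nat.mod_lt _ (by norm_num)
  have hdec : ∀ r < 16, ¬ (3 ^ r % 17 = 4 ∧ 3 ^ r % 8 = 3) := by decide +kernel
  apply hdec _ hr
  rw [← a17, ← a8]
  omega

/-- For `s ≥ 4` the number `2 ^ (2 ^ s - 1) - 1` is not a power of two plus a prime power. -/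
theorem no_rep_pow (s : ℕ) (hs : 4 ≤ s) (k p j : ℕ) (hp : p.Prime) :
    2 ^ (2 ^ s - 1) ≠ 2 ^ k + p ^ j + 1 := by
  intro h
  obtain ⟨c, hc⟩ : 2 ^ 4 ∣ 2 ^ s := pow_dvd_pow 2 hs
  have hs0 : 0 < 2 ^ s := by positivity
  have hc1 : 1 ≤ c := by
    rcases Nat.eq_zero_or_pos c with h0 | h0
    · rw [h0] at hc; omega
    · exact h0
  set m := 2 ^ s - 1 with hmdef
  have hm16 : m = 16 * (c - 1) + 15 := by omega
  have hpj : 1 ≤ p ^ j := Nat.one_le_pow _ _ hp.pos
  have hkm : k < m := by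
    by_contra hcon
    have h1 : 2 ^ m ≤ 2 ^ k := Nat.pow_le_pow_right (by norm_num) (by omega)
    omega
  obtain ⟨v, u, hu, hvu⟩ := Nat.exists_eq_two_pow_mul_odd (n := m - k) (by omega)
  have hmk : m = k + 2 ^ v * u := by omega
  have hdvd := Pool.Agent.S17321.fermat_dvd s k v u hu hmk
  rw [← hmdef] at hdvd
  have hpz : (2 : ℤ) ^ m - 2 ^ k - 1 = ((p ^ j : ℕ) : ℤ) := by
    have h' : (2 : ℤ) ^ m = 2 ^ k + ((p ^ j : ℕ) : ℤ) + 1 := by exact_mod_cast h
    linarith
  rw [hpz] at hdvd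
  have hdvd' : 2 ^ (2 ^ v) + 1 ∣ p ^ j := by exact_mod_cast hdvd
  obtain ⟨i, -, hi⟩ := (Nat.dvd_prime_pow hp).mp hdvd'
  have hFeven : 2 ∣ 2 ^ (2 ^ v) := dvd_pow_self 2 (by positivity)
  have hFpos : 0 < 2 ^ (2 ^ v) := by positivity
  -- `p` is odd
  have hp2 : p % 2 = 1 := by
    rcases hp.eq_two_or_odd with h2 | h2
    · exfalso
      rcases Nat.eq_zero_or_pos i with hi0 | hi0
      · rw [hi0, pow_zero] at hi; omega
      · have h3 : 2 ∣ p ^ i := by
          rw [h2]; exact dvd_pow_self 2 (by omega)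
        omega
    · exact h2
  have h2m8 : 2 ^ m % 8 = 0 := by
    rw [hm16, pow_add, pow_mul, Nat.mul_mod]
    norm_num
  rcases Nat.lt_or_ge k 3 with hk3 | hk3
  · interval_cases k
    · -- `k = 0`: `p ^ j = 2 ^ m - 2` is even
      have h3 := odd_pow_mod p j hp2
      have : p ^ j % 2 = 1 := by
        split_ifs at h3 <;> omega
      omega
    · -- `k = 1`: `v = 1`, `p = 5`
      have hv : v = 1 := by
        rcases v with _ | _ | v
        · exfalso
          rw [Nat.odd_iff] at hu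
          simp only [pow_zero, one_mul] at hmk
          omega
        · rfl
        · exfalso
          have : 2 ^ (v + 1 + 1) * u = 4 * (2 ^ v * u) := by ring
          omega
      subst hv
      have h5 : 5 = p ^ i := by simpa using hi
      have hp5 : p = 5 := by
        have h6 : p ∣ 5 := by
          rcases Nat.eq_zero_or_pos i with hi0 | hi0
          · rw [hi0, pow_zero] at h5; omega
          · rw [h5]; exact dvd_pow_self p (by omega)
        exact (Nat.prime_dvd_prime_iff_eq hp (by norm_num)).mp h6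
      subst hp5
      exact five_case m j (c - 1) hm16 (by omega)
    · -- `k = 2`: `v = 0`, `p = 3`
      have hv : v = 0 := by
        rcases v with _ | v
        · rfl
        · exfalso
          have : 2 ^ (v + 1) * u = 2 * (2 ^ v * u) := by ring
          omega
      subst hv
      have h5 : 3 = p ^ i := by simpa using hi
      have hp3 : p = 3 := by
        have h6 : p ∣ 3 := by
          rcases Nat.eq_zero_or_pos i with hi0 | hi0
          · rw [hi0, pow_zero] at h5; omega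
          · rw [h5]; exact dvd_pow_self p (by omega)
        exact (Nat.prime_dvd_prime_iff_eq hp (by norm_num)).mp h6
      subst hp3
      exact three_case m j (2 * (c - 1) + 1) (by omega) (by omega)
  · -- `k ≥ 3`: `p ^ j ≡ 7 (mod 8)`
    obtain ⟨e, he⟩ : 2 ^ 3 ∣ 2 ^ k := pow_dvd_pow 2 hk3
    have h7 : p ^ j % 8 = 7 := by omega
    have hp7 : p % 8 = 7 := by
      have h3 := odd_pow_mod p j hp2
      split_ifs at h3 with hj
      · omega
      · omega
    have h3 := odd_pow_mod p i hp2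
    rcases v with _ | _ | v
    · -- `F_0 = 3`
      have h5 : 3 = p ^ i := by simpa using hi
      rw [← h5] at h3
      split_ifs at h3 <;> omega
    · have h5 : 5 = p ^ i := by simpa using hi
      rw [← h5] at h3
      split_ifs at h3 <;> omega
    · -- `F_v ≡ 1 (mod 8)`, so `i` is even, and `F_v` is a square
      have e1 : 2 ^ (2 ^ (v + 1 + 1)) = (2 ^ (2 ^ (v + 1))) ^ 2 := by
        rw [← pow_mul]; ring_nf
      obtain ⟨e, he⟩ : 2 ^ 4 ∣ 2 ^ (2 ^ (v + 1 + 1)) := by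
        apply pow_dvd_pow
        have : 2 ^ (v + 1 + 1) = 4 * 2 ^ v := by ring
        have : 1 ≤ 2 ^ v := Nat.one_le_two_pow
        omega
      have hF8 : p ^ i % 8 = 1 := by omega
      have hieven : i % 2 = 0 := by
        by_contra hne
        rw [if_neg hne] at h3
        omega
      have hi2 : i = i / 2 * 2 := by omega
      rw [hi2, pow_mul, e1] at hi
      exact sq_ne (p ^ (i / 2)) (2 ^ (2 ^ (v + 1))) (by positivity) hi.symm

/-- Q1, answered affirmatively, with prime powers in place of primes: infinitely many odd positive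
integers, among them `2 ^ (2 ^ s - 1) - 1` for every `s ≥ 4`, are not of the form `2 ^ k + p ^ j` and
belong to no covering class. -/
theorem result :
    {n : ℤ | 0 < n ∧ Odd n ∧ ¬ IsPowAddPrimePow n ∧
      ∀ D : CoveringDatum, n ∉ D.coveringClass}.Infinite ∧
    ∀ s : ℕ, 4 ≤ s → (2 : ℤ) ^ (2 ^ s - 1) - 1 ∈
      {n : ℤ | 0 < n ∧ Odd n ∧ ¬ IsPowAddPrimePow n ∧
        ∀ D : CoveringDatum, n ∉ D.coveringClass} := by
  have hbig : ∀ s : ℕ, 4 ≤ s → 16 ≤ 2 ^ s := fun s hs => by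
    calc 16 = 2 ^ 4 := by norm_num
      _ ≤ 2 ^ s := Nat.pow_le_pow_right (by norm_num) hs
  have key : ∀ s : ℕ, 4 ≤ s → (2 : ℤ) ^ (2 ^ s - 1) - 1 ∈
      {n : ℤ | 0 < n ∧ Odd n ∧ ¬ IsPowAddPrimePow n ∧
        ∀ D : CoveringDatum, n ∉ D.coveringClass} := by
    intro s hs
    have h1 := hbig s hs
    refine ⟨?_, ?_, ?_, fun D => not_mem_class D _ (2 ^ s - 1) (by ring)⟩
    · have h2 : (2 : ℤ) ^ 1 ≤ 2 ^ (2 ^ s - 1) := pow_le_pow_right₀ (by norm_num) (by omega)
      linarith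
    · have h2 : Even ((2 : ℤ) ^ (2 ^ s - 1)) := Even.pow_of_ne_zero (by norm_num) (by omega)
      exact h2.sub_odd odd_one
    · rintro ⟨k, p, j, hp, hn⟩
      apply no_rep_pow s hs k p j hp
      have : (2 : ℤ) ^ (2 ^ s - 1) = 2 ^ k + p ^ j + 1 := by linarith
      exact_mod_cast this
  refine ⟨?_, key⟩
  apply Set.infinite_of_injective_forall_mem
    (f := fun t : ℕ => (2 : ℤ) ^ (2 ^ (t + 4) - 1) - 1)
  · intro I J hIJ
    simp only [sub_left_inj] at hIJ
    have h3 : 2 ^ (2 ^ (I + 4) - 1) = 2 ^ (2 ^ (J + 4) - 1) := by exact_mod_cast hIJ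
    have h4 := Nat.pow_right_injective (le_refl 2) h3
    have h5 : 1 ≤ 2 ^ (I + 4) := Nat.one_le_two_pow
    have h6 : 1 ≤ 2 ^ (J + 4) := Nat.one_le_two_pow
    have h7 : 2 ^ (I + 4) = 2 ^ (J + 4) := by omega
    have h8 := Nat.pow_right_injective (le_refl 2) h7
    omega
  · intro t
    exact key (t + 4) (by omega)

end Pool.Agent.Results.MP_6c5308_nt.OutsideCoveringClasses
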